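import Mathlib
import Pool.Agent.V11187.ProjSym

/-!
A convex body in three-dimensional Euclidean space, not a Euclidean ball, all of whose
hyperplane projections are translates of completely symmetric sets.

The body has support function `h(x) = 8 |x| + x₃³ / |x|²`.  On a plane the cubic form splits as
`|y|² ⟨v, y⟩` plus a harmonic cubic, the latter being invariant under rotation by 120 degrees.
-/

open MeasureTheory Metric Module Pool.Agent.V11187.ProjSym

namespace Pool.Agent.Results.MP_093203_gt.CubicBody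

/-- Three-dimensional Euclidean space. -/
abbrev E3 : Type := EuclideanSpace ℝ (Fin 3)

/-- The support function of the example. -/
noncomputable def hh (x : E3) : ℝ := 8 * ‖x‖ + (x 2) ^ 3 / ‖x‖ ^ 2

theorem hh_hom (c : ℝ) (hc : 0 < c) (x : E3) : hh (c • x) = c * hh x := by
  unfold hh
  rw [norm_smul, Real.norm_of_nonneg hc.le]
  by_cases hx : x = 0
  · rw [hx]; simp
  · have hn : ‖x‖ ≠ 0 := norm_ne_zero_iff.mpr hx
    simp only [PiLp.smul_apply, smul_eq_mul]
    field_simp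

theorem abs_coord_le (x : E3) (i : Fin 3) : |x i| ≤ ‖x‖ := by
  have := PiLp.norm_apply_le x i
  simpa using this

/-- The basic inequality for unit vectors. -/
theorem key_unit (w y : E3) (hw : ‖w‖ = 1) (hy : ‖y‖ = 1) :
    8 * inner ℝ w y + 3 * (w 2) ^ 2 * y 2 - 2 * (w 2) ^ 3 * inner ℝ w y ≤ 8 + (y 2) ^ 3 := by
  have hwa := abs_le.mp ((abs_coord_le w 2).trans hw.le)
  have hya := abs_le.mp ((abs_coord_le y 2).trans hy.le)
  set t : ℝ := inner ℝ w y with ht
  have h1 : ‖w - y‖ ^ 2 = 2 * (1 - t) := by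
    rw [norm_sub_sq_real, hw, hy]; ring
  have h2 : (w 2 - y 2) ^ 2 ≤ 2 * (1 - t) := by
    rw [← h1, ← sq_abs]
    have : |w 2 - y 2| ≤ ‖w - y‖ := by
      have := abs_coord_le (w - y) 2
      simpa using this
    gcongr
  have ht1 : 0 ≤ 1 - t := by nlinarith [sq_nonneg (w 2 - y 2)]
  set a := w 2
  set b := y 2
  have ha3 : a ^ 3 ≤ 1 := by nlinarith [sq_nonneg a, sq_nonneg (a + 1), hwa.1, hwa.2]
  have h3 : (a - b) ^ 2 * (-(2 * a + b)) ≤ (a - b) ^ 2 * 3 := by
    apply mul_le_mul_of_nonneg_left _ (sq_nonneg _)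
    linarith [hwa.1, hya.1]
  have h4 : a ^ 3 * (1 - t) ≤ 1 * (1 - t) := mul_le_mul_of_nonneg_right ha3 ht1
  nlinarith

/-- For a unit vector `w` the linear functional with the gradient of `hh` at `w` is below
`hh`. -/
theorem key (w y : E3) (hw : ‖w‖ = 1) :
    8 * inner ℝ w y + 3 * (w 2) ^ 2 * y 2 - 2 * (w 2) ^ 3 * inner ℝ w y ≤ hh y := by
  by_cases hy : y = 0
  · rw [hy]; simp [hh]
  · have hn : 0 < ‖y‖ := norm_pos_iff.mpr hy
    have h1 := key_unit w ((‖y‖)⁻¹ • y) hw (by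
      rw [norm_smul, norm_inv, norm_norm, inv_mul_cancel₀ hn.ne'])
    rw [real_inner_smul_right] at h1
    simp only [PiLp.smul_apply, smul_eq_mul] at h1
    unfold hh
    have h2 := mul_le_mul_of_nonneg_left h1 hn.le
    have e1 : ‖y‖ * (8 * ((‖y‖)⁻¹ * inner ℝ w y) + 3 * (w 2) ^ 2 * ((‖y‖)⁻¹ * y 2) -
        2 * (w 2) ^ 3 * ((‖y‖)⁻¹ * inner ℝ w y)) =
        8 * inner ℝ w y + 3 * (w 2) ^ 2 * y 2 - 2 * (w 2) ^ 3 * inner ℝ w y := by
      field_simp
    have e2 : ‖y‖ * (8 + ((‖y‖)⁻¹ * y 2) ^ 3) = 8 * ‖y‖ + (y 2) ^ 3 / ‖y‖ ^ 2 := by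
      field_simp
    rw [e1, e2] at h2
    exact h2

theorem hh_eq (w : E3) (hw : w ≠ 0) :
    8 * inner ℝ ((‖w‖)⁻¹ • w) w + 3 * (((‖w‖)⁻¹ • w) 2) ^ 2 * w 2 -
      2 * (((‖w‖)⁻¹ • w) 2) ^ 3 * inner ℝ ((‖w‖)⁻¹ • w) w = hh w := by
  have hn : 0 < ‖w‖ := norm_pos_iff.mpr hw
  rw [real_inner_smul_left, real_inner_self_eq_norm_sq]
  simp only [PiLp.smul_apply, smul_eq_mul]
  unfold hh
  field_simp
  ring

theorem hh_nonneg_bound (x : E3) : 7 * ‖x‖ ≤ hh x ∧ hh x ≤ 9 * ‖x‖ := by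
  by_cases hx : x = 0
  · rw [hx]; simp [hh]
  · have hn : 0 < ‖x‖ := norm_pos_iff.mpr hx
    have h1 := abs_le.mp (abs_coord_le x 2)
    have h2 : |(x 2) ^ 3| ≤ ‖x‖ ^ 3 := by
      rw [abs_pow]
      gcongr
      exact abs_coord_le x 2
    have h3 := abs_le.mp h2
    have h4 : (x 2) ^ 3 / ‖x‖ ^ 2 ≤ ‖x‖ := by
      rw [div_le_iff₀ (by positivity)]
      nlinarith
    have h5 : -‖x‖ ≤ (x 2) ^ 3 / ‖x‖ ^ 2 := by
      rw [le_div_iff₀ (by positivity)]
      nlinarith
    unfold hh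
    constructor <;> linarith

theorem hh_add (x y : E3) : hh (x + y) ≤ hh x + hh y := by
  by_cases hxy : x + y = 0
  · rw [hxy]
    have h0 : hh 0 = 0 := by simp [hh]
    rw [h0]
    have h1 := (hh_nonneg_bound x).1
    have h2 := (hh_nonneg_bound y).1
    linarith [norm_nonneg x, norm_nonneg y]
  · have hn : 0 < ‖x + y‖ := norm_pos_iff.mpr hxy
    have hu : ‖(‖x + y‖)⁻¹ • (x + y)‖ = 1 := by
      rw [norm_smul, norm_inv, norm_norm, inv_mul_cancel₀ hn.ne']
    have h1 := key _ x hu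
    have h2 := key _ y hu
    rw [← hh_eq _ hxy]
    set w := (‖x + y‖)⁻¹ • (x + y)
    rw [inner_add_right]
    have : (x + y) 2 = x 2 + y 2 := by simp
    rw [this]
    linarith

/-- The body. -/
noncomputable def K0 : Set E3 := Wulff hh

theorem K0_body : IsConvexBody K0 :=
  wulff_convexBody hh 7 9 (by norm_num) (by norm_num) (fun x => (hh_nonneg_bound x).1)
    (fun x => (hh_nonneg_bound x).2)

theorem K0_not_ball : ¬ IsBall K0 := by
  rintro ⟨c, r, hr, hK⟩
  have hle : ∀ x, hh x ≤ inner ℝ c x + r * ‖x‖ := by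
    intro x
    obtain ⟨z, hz, hzx⟩ := wulff_attained hh hh_hom hh_add x
    have hz' : z ∈ closedBall c r := by rw [← hK]; exact hz
    rw [mem_closedBall, dist_eq_norm] at hz'
    have h1 : inner ℝ z x = inner ℝ c x + inner ℝ (z - c) x := by
      rw [inner_sub_left]; ring
    rw [← hzx, h1]
    have h2 : inner ℝ (z - c) x ≤ ‖z - c‖ * ‖x‖ := real_inner_le_norm _ _
    have h3 : ‖z - c‖ * ‖x‖ ≤ r * ‖x‖ := by gcongr
    linarith
  have hge : ∀ x, inner ℝ c x + r * ‖x‖ ≤ hh x := by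
    intro x
    by_cases hx : x = 0
    · rw [hx]; simp [hh]
    · have hn : 0 < ‖x‖ := norm_pos_iff.mpr hx
      have hz : c + (r * (‖x‖)⁻¹) • x ∈ K0 := by
        rw [hK, mem_closedBall, dist_eq_norm, add_sub_cancel_left, norm_smul,
          Real.norm_of_nonneg (by positivity), mul_assoc, inv_mul_cancel₀ hn.ne', mul_one]
      have h1 := hz x
      rw [inner_add_left, real_inner_smul_left, real_inner_self_eq_norm_sq] at h1
      have h2 : r * (‖x‖)⁻¹ * ‖x‖ ^ 2 = r * ‖x‖ := by field_simp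
      rwa [h2] at h1
  have heq : ∀ x, hh x = inner ℝ c x + r * ‖x‖ := fun x => le_antisymm (hle x) (hge x)
  have hodd : ∀ x, hh x - hh (-x) = 2 * inner ℝ c x := by
    intro x
    rw [heq x, heq (-x), inner_neg_right, norm_neg]
    ring
  have hodd' : ∀ x : E3, hh x - hh (-x) = 2 * ((x 2) ^ 3 / ‖x‖ ^ 2) := by
    intro x
    unfold hh
    rw [norm_neg]
    have : (-x) 2 = - x 2 := by simp
    rw [this]
    ring
  have hc : ∀ x : E3, (x 2) ^ 3 / ‖x‖ ^ 2 = inner ℝ c x := by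
    intro x
    have h1 := hodd x
    rw [hodd'] at h1
    linarith
  have h0 := hc (EuclideanSpace.single 0 1)
  have h2 := hc (EuclideanSpace.single 2 1)
  have h02 := hc (EuclideanSpace.single 0 1 + EuclideanSpace.single 2 1)
  rw [inner_add_right, ← h0, ← h2, EuclideanSpace.norm_sq_eq, EuclideanSpace.norm_sq_eq,
    EuclideanSpace.norm_sq_eq] at h02
  simp [Fin.sum_univ_three] at h02

/-- The planar statement. -/
theorem planar (W : Submodule ℝ E3) (hW : finrank ℝ W = 2) :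
    IsTranslateCS (W.orthogonalProjectionOnto '' K0) := by
  let b : OrthonormalBasis (Fin 2) ℝ W := (stdOrthonormalBasis ℝ W).reindex (finCongr hW)
  set p : ℝ := (b 0 : E3) 2 with hp
  set s : ℝ := (b 1 : E3) 2 with hs
  let v : W := ((3 / 4) * (p ^ 2 + s ^ 2) * p) • b 0 + ((3 / 4) * (p ^ 2 + s ^ 2) * s) • b 1
  let g : W → ℝ := fun y => hh (y : E3) - inner ℝ v y
  have hdec : ∀ y : W, ∃ y0 y1 : ℝ, y = y0 • b 0 + y1 • b 1 := exists_comb b
  have hnorm : ∀ y0 y1 : ℝ, ‖y0 • b 0 + y1 • b 1‖ ^ 2 = y0 ^ 2 + y1 ^ 2 := norm_sq_comb b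
  have hinv : ∀ y0 y1 : ℝ, inner ℝ v (y0 • b 0 + y1 • b 1) =
      (3 / 4) * (p ^ 2 + s ^ 2) * (p * y0 + s * y1) := by
    intro y0 y1
    rw [inner_comb b]
    ring
  have hcoord : ∀ y0 y1 : ℝ, ((y0 • b 0 + y1 • b 1 : W) : E3) 2 = p * y0 + s * y1 := by
    intro y0 y1
    simp [hp, hs]
    ring
  -- the formula for `g`
  have hg : ∀ y0 y1 : ℝ, y0 ^ 2 + y1 ^ 2 ≠ 0 → g (y0 • b 0 + y1 • b 1) =
      8 * Real.sqrt (y0 ^ 2 + y1 ^ 2) + ((p * y0 + s * y1) ^ 3 -
        (3 / 4) * (p ^ 2 + s ^ 2) * (p * y0 + s * y1) * (y0 ^ 2 + y1 ^ 2)) /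
          (y0 ^ 2 + y1 ^ 2) := by
    intro y0 y1 hne
    have h1 : ‖((y0 • b 0 + y1 • b 1 : W) : E3)‖ = Real.sqrt (y0 ^ 2 + y1 ^ 2) := by
      rw [← hnorm, Real.sqrt_sq (norm_nonneg _)]; rfl
    change hh ((y0 • b 0 + y1 • b 1 : W) : E3) - inner ℝ v (y0 • b 0 + y1 • b 1) = _
    unfold hh
    rw [hinv, h1, Real.sq_sqrt (by positivity), hcoord, sub_div,
      mul_div_cancel_right₀ _ hne]
    ring
  have hS2 : (Real.sqrt 3 / 2) ^ 2 = (3 / 4 : ℝ) := by
    rw [div_pow, Real.sq_sqrt (by norm_num)]; norm_num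
  obtain ⟨R, hR⟩ := exists_isRot b (-(1 / 2)) (Real.sqrt 3 / 2)
    (by rw [hS2]; norm_num) (by positivity)
  have hRy : ∀ y0 y1 : ℝ, R (y0 • b 0 + y1 • b 1) =
      (-(1 / 2) * y0 - Real.sqrt 3 / 2 * y1) • b 0 +
        (Real.sqrt 3 / 2 * y0 - 1 / 2 * y1) • b 1 := by
    intro y0 y1
    rw [map_add, map_smul, map_smul, hR.r0, hR.r1]
    module
  have hgR : ∀ y, g (R y) = g y := by
    intro y
    obtain ⟨y0, y1, rfl⟩ := hdec y
    by_cases hne : y0 ^ 2 + y1 ^ 2 = 0
    · have h0 : y0 • b 0 + y1 • b 1 = 0 := by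
        have := hnorm y0 y1
        rw [hne] at this
        exact norm_eq_zero.mp (pow_eq_zero_iff (two_ne_zero) |>.mp this)
      rw [h0, map_zero]
    · rw [hRy, hg y0 y1 hne]
      set S := Real.sqrt 3 / 2
      have hn : (-(1 / 2) * y0 - S * y1) ^ 2 + (S * y0 - 1 / 2 * y1) ^ 2 = y0 ^ 2 + y1 ^ 2 := by
        linear_combination (y0 ^ 2 + y1 ^ 2) * hS2
      rw [hg _ _ (by rw [hn]; exact hne), hn]
      congr 2
      have hX : p * (-(1 / 2) * y0 - S * y1) + s * (S * y0 - 1 / 2 * y1) =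
          -(1 / 2) * (p * y0 + s * y1) + S * (s * y0 - p * y1) := by ring
      rw [hX]
      linear_combination (-(3 / 2) * (p * y0 + s * y1) * (s * y0 - p * y1) ^ 2 +
        S * (s * y0 - p * y1) ^ 3) * hS2
  -- translation
  have htrans : Wulff (fun y : W => hh (y : E3)) = (fun x => x + v) '' Wulff g := by
    ext z
    constructor
    · intro hz
      refine ⟨z - v, fun y => ?_, sub_add_cancel z v⟩
      rw [inner_sub_left]
      have := hz y
      change _ ≤ hh (y : E3) - inner ℝ v y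
      linarith
    · rintro ⟨w, hw, rfl⟩ y
      have h1 : inner ℝ w y ≤ hh (y : E3) - inner ℝ v y := hw y
      change inner ℝ (w + v) y ≤ hh (y : E3)
      rw [inner_add_left]
      linarith
  have hproj := proj_wulff hh hh_hom hh_add W
  have hbodyW : IsConvexBody (Wulff (fun y : W => hh (y : E3))) :=
    wulff_convexBody _ 7 9 (by norm_num) (by norm_num) (fun x => (hh_nonneg_bound (x : E3)).1)
      (fun x => (hh_nonneg_bound (x : E3)).2)
  have hbody : IsConvexBody (Wulff g) := by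
    have h1 : Wulff g = (fun x => x + (-v)) '' Wulff (fun y : W => hh (y : E3)) := by
      rw [htrans, ← Set.image_comp]
      have : ((fun x : W => x + -v) ∘ fun x => x + v) = id := by
        funext x; simp
      rw [this, Set.image_id]
    rw [h1]
    refine ⟨hbodyW.1.image (by fun_prop), ?_, ?_⟩
    · rw [← h1]; exact wulff_convex g
    · have h2 : (fun x : W => x + (-v)) = (Homeomorph.addRight (-v) : W → W) := rfl
      rw [h2, ← Homeomorph.image_interior]
      exact hbodyW.2.2.image _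
  refine ⟨Wulff g, v, ?_, ?_⟩
  · exact hR.completelySymmetric (Wulff g) hbody (wulff_image_isometry g R hgR)
  · rw [← htrans]; exact hproj

/-- There is a convex body in three-dimensional Euclidean space that is not a Euclidean ball
and each of whose hyperplane projections `K | u^⊥` is a translate of a completely symmetric
subset of `u^⊥`. -/
theorem result : ∃ K : Set (EuclideanSpace ℝ (Fin 3)), IsConvexBody K ∧ ¬ IsBall K ∧
    ∀ u : EuclideanSpace ℝ (Fin 3), ‖u‖ = 1 → IsTranslateCS (Proj u K) := by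
  refine ⟨K0, K0_body, K0_not_ball, fun u hu => ?_⟩
  have : Fact (finrank ℝ (EuclideanSpace ℝ (Fin 3)) = 2 + 1) := ⟨by simp⟩
  exact planar _ (Submodule.finrank_orthogonal_span_singleton (by
    intro h; rw [h, norm_zero] at hu; norm_num at hu))

end Pool.Agent.Results.MP_093203_gt.CubicBody
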